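import Pool.Agent.R713.Concrete

/-!
# MP_f77be9_al: a Leonard triple on `ℚ²` whose commutators are not exchanged by an antiautomorphism
-/

set_option autoImplicit false

namespace Pool.Agent.Results.MP_f77be9_al.NoAntiautomorphism

open Pool.Agent.R713 Module Matrix

def X : Matrix (Fin 2) (Fin 2) ℚ := !![1, 0; 0, -1]

def Y : Matrix (Fin 2) (Fin 2) ℚ := !![0, 1; 1, 0]

def Z : Matrix (Fin 2) (Fin 2) ℚ := !![7/4, 2; 1, -(7/4)]

def PY : Matrix (Fin 2) (Fin 2) ℚ := !![1, 1; 1, -1]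
def QY : Matrix (Fin 2) (Fin 2) ℚ := !![1/2, 1/2; 1/2, -(1/2)]
def PZ : Matrix (Fin 2) (Fin 2) ℚ := !![4, 1; 1, -2]
def QZ : Matrix (Fin 2) (Fin 2) ℚ := !![2/9, 1/9; 1/9, -(4/9)]

set_option linter.unusedTactic false
set_option linter.unreachableTactic false

theorem tripleX : DiagTridiag₂ (Matrix.toLin' X) (Matrix.toLin' Y) (Matrix.toLin' Z) := by
  refine DiagTridiag₂.of_matrix (by norm_num) _ _ _ 1 1 (by rw [mul_one]) ?_ ?_ ?_
  · intro i j hij
    rw [one_mul, mul_one]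
    fin_cases i <;> fin_cases j <;> simp [X] at hij ⊢
  · intro i j
    rw [one_mul, mul_one]
    fin_cases i <;> fin_cases j <;> simp [Y]
  · intro i j
    rw [one_mul, mul_one]
    fin_cases i <;> fin_cases j <;> simp [Z]

theorem tripleY : DiagTridiag₂ (Matrix.toLin' Y) (Matrix.toLin' X) (Matrix.toLin' Z) := by
  refine DiagTridiag₂.of_matrix (by norm_num) _ _ _ PY QY ?_ ?_ ?_ ?_
  · ext i j
    fin_cases i <;> fin_cases j <;>
      simp [PY, QY, Matrix.mul_apply, Fin.sum_univ_two] <;> norm_num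
  · intro i j hij
    fin_cases i <;> fin_cases j <;>
      simp [PY, QY, Y, Matrix.mul_apply, Fin.sum_univ_two] at hij ⊢
  · intro i j
    fin_cases i <;> fin_cases j <;>
      simp [PY, QY, X, Matrix.mul_apply, Fin.sum_univ_two] <;> norm_num
  · intro i j
    fin_cases i <;> fin_cases j <;>
      simp [PY, QY, Z, Matrix.mul_apply, Fin.sum_univ_two] <;> norm_num

theorem tripleZ : DiagTridiag₂ (Matrix.toLin' Z) (Matrix.toLin' X) (Matrix.toLin' Y) := by
  refine DiagTridiag₂.of_matrix (by norm_num) _ _ _ PZ QZ ?_ ?_ ?_ ?_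
  · ext i j
    fin_cases i <;> fin_cases j <;>
      simp [PZ, QZ, Matrix.mul_apply, Fin.sum_univ_two] <;> norm_num
  · intro i j hij
    fin_cases i <;> fin_cases j <;>
      simp [PZ, QZ, Z, Matrix.mul_apply, Fin.sum_univ_two] at hij ⊢ <;> norm_num
  · intro i j
    fin_cases i <;> fin_cases j <;>
      simp [PZ, QZ, X, Matrix.mul_apply, Fin.sum_univ_two] <;> norm_num
  · intro i j
    fin_cases i <;> fin_cases j <;>
      simp [PZ, QZ, Y, Matrix.mul_apply, Fin.sum_univ_two] <;> norm_num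

/-- `U = [X, Y]` has square `-4`, `W = [X, Z]` has square `-8` -/
theorem sqU : (X * Y - Y * X) * (X * Y - Y * X) = (-4 : ℚ) • (1 : Matrix (Fin 2) (Fin 2) ℚ) := by
  ext i j
  fin_cases i <;> fin_cases j <;>
    simp [X, Y, Matrix.mul_apply, Fin.sum_univ_two] <;> norm_num

theorem sqW : (X * Z - Z * X) * (X * Z - Z * X) = (-8 : ℚ) • (1 : Matrix (Fin 2) (Fin 2) ℚ) := by
  ext i j
  fin_cases i <;> fin_cases j <;>
    simp [X, Z, Matrix.mul_apply, Fin.sum_univ_two] <;> norm_num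

/-- Antiautomorphisms of `End V`. -/
def IsAnti {K V : Type*} [Field K] [AddCommGroup V] [Module K V]
    (σ : Module.End K V ≃ₗ[K] Module.End K V) : Prop :=
  ∀ f g, σ (f * g) = σ g * σ f

theorem no_sigma (σ : Module.End ℚ (Fin 2 → ℚ) ≃ₗ[ℚ] Module.End ℚ (Fin 2 → ℚ)) (hσ : IsAnti σ)
    (c : ℚ) : σ (Matrix.toLin' X * Matrix.toLin' Y - Matrix.toLin' Y * Matrix.toLin' X) ≠
      c • (Matrix.toLin' X * Matrix.toLin' Z - Matrix.toLin' Z * Matrix.toLin' X) := by
  intro h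
  have h1 : σ 1 = 1 := by
    obtain ⟨e, he⟩ := σ.surjective 1
    have h2 := hσ 1 e
    rw [one_mul, he, one_mul] at h2
    exact h2.symm
  have e1 : ∀ M N : Matrix (Fin 2) (Fin 2) ℚ,
      Matrix.toLin' M * Matrix.toLin' N - Matrix.toLin' N * Matrix.toLin' M =
        Matrix.toLin' (M * N - N * M) := by
    intro M N
    rw [map_sub, Matrix.toLin'_mul, Matrix.toLin'_mul]
    rfl
  have e2 : ∀ M : Matrix (Fin 2) (Fin 2) ℚ, Matrix.toLin' M * Matrix.toLin' M =
      Matrix.toLin' (M * M) := by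
    intro M
    rw [Matrix.toLin'_mul]
    rfl
  rw [e1, e1] at h
  have h3 := hσ (Matrix.toLin' (X * Y - Y * X)) (Matrix.toLin' (X * Y - Y * X))
  rw [e2, sqU, h, smul_mul_assoc, mul_smul_comm, e2, sqW, map_smul, map_smul, map_smul,
    Matrix.toLin'_one, smul_smul, smul_smul] at h3
  have h4 : (LinearMap.id : Module.End ℚ (Fin 2 → ℚ)) = 1 := rfl
  rw [h4, h1] at h3
  have h5 := congrFun (DFunLike.congr_fun h3 (Pi.single 0 1)) 0
  simp at h5
  have h6 : (2 * c) ^ 2 = 2 := by linarith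
  have h7 : IsSquare (2 : ℚ) := ⟨2 * c, by linear_combination -h6⟩
  rw [Rat.isSquare_iff] at h7
  have h8 : ¬ IsSquare (2 : ℤ) := by
    rintro ⟨r, hr⟩
    have h9 : r ≤ 1 := by nlinarith
    have h10 : -1 ≤ r := by nlinarith
    interval_cases r <;> omega
  exact h8 h7.1

theorem result : ∃ x y z : Module.End ℚ (Fin 2 → ℚ), LeonardTriple x y z ∧
    ∀ σ : Module.End ℚ (Fin 2 → ℚ) ≃ₗ[ℚ] Module.End ℚ (Fin 2 → ℚ), IsAnti σ →
      ∀ c : ℚ, σ (x * y - y * x) ≠ c • (x * z - z * x) :=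
  ⟨_, _, _, ⟨tripleX, tripleY, tripleZ⟩, no_sigma⟩

end Pool.Agent.Results.MP_f77be9_al.NoAntiautomorphism
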